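import Pool.Agent.X177.WG.Main

set_option autoImplicit false

/-!
`MP_0eb1a9_lc`, Q1: a winning strategy of Player II in the Ulam game of length `ω` does not give a
winning strategy in `G*_ω`.
-/

namespace Pool.Agent.Results.MP_0eb1a9_lc.UlamNotGStar

open Pool.Agent.X177.WG Cardinal

universe u

/-- (1) If Player II wins `G*_ω` on the inaccessible cardinal `κ` then `κ` is weakly compact and a
limit of weakly compact cardinals. (2) If there is a measurable cardinal `μ ≤ κ` then Player II wins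
the Ulam game of length `ω` on `κ`. (3) So Player II wins the Ulam game but not `G*_ω` at every
weakly compact `κ` which is the least one above a measurable cardinal `μ`, at every inaccessible
`κ > μ` which is not weakly compact, and (4), (5) such cardinals exist as soon as there is a
measurable cardinal with a weakly compact (resp. an inaccessible) cardinal above it. -/
theorem result :
    (∀ κ : Cardinal.{u}, κ.IsInaccessible → WinsGStar κ →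
      IsWeaklyCompact κ ∧ ∀ δ < κ, ∃ a, δ < a ∧ a < κ ∧ IsWeaklyCompact a) ∧
    (∀ μ κ : Cardinal.{u}, IsMeasurable μ → μ ≤ κ → WinsUlam κ) ∧
    (∀ μ κ : Cardinal.{u}, IsMeasurable μ → μ < κ → κ.IsInaccessible →
      (¬ IsWeaklyCompact κ ∨ ∀ a, μ < a → a < κ → ¬ IsWeaklyCompact a) →
      WinsUlam κ ∧ ¬ WinsGStar κ) ∧
    (∀ μ κ : Cardinal.{u}, IsMeasurable μ → μ < κ → IsWeaklyCompact κ →
      ∃ ν, μ < ν ∧ ν ≤ κ ∧ IsWeaklyCompact ν ∧ WinsUlam ν ∧ ¬ WinsGStar ν) ∧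
    (∀ μ κ : Cardinal.{u}, IsMeasurable μ → μ < κ → κ.IsInaccessible →
      ∃ ν, μ < ν ∧ ν ≤ κ ∧ ν.IsInaccessible ∧ WinsUlam ν ∧ ¬ WinsGStar ν) := by
  have h1 : ∀ κ : Cardinal.{u}, κ.IsInaccessible → WinsGStar κ →
      IsWeaklyCompact κ ∧ ∀ δ < κ, ∃ a, δ < a ∧ a < κ ∧ IsWeaklyCompact a :=
    fun κ hκ hW => ⟨isWeaklyCompact_of_wins hκ hW, fun δ hδ => exists_small hκ hW hδ⟩
  have h3 : ∀ μ κ : Cardinal.{u}, IsMeasurable μ → μ < κ → κ.IsInaccessible →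
      (¬ IsWeaklyCompact κ ∨ ∀ a, μ < a → a < κ → ¬ IsWeaklyCompact a) →
      WinsUlam κ ∧ ¬ WinsGStar κ := by
    intro μ κ hμ hμκ hκ h
    refine ⟨winsUlam hμ hμκ.le, fun hW => ?_⟩
    obtain ⟨h2, h4⟩ := h1 κ hκ hW
    rcases h with h | h
    · exact h h2
    · obtain ⟨a, h5, h6, h7⟩ := h4 μ hμκ
      exact h a h5 h6 h7
  have h4 : ∀ μ κ : Cardinal.{u}, IsMeasurable μ → μ < κ → IsWeaklyCompact κ →
      ∃ ν, μ < ν ∧ ν ≤ κ ∧ IsWeaklyCompact ν ∧ WinsUlam ν ∧ ¬ WinsGStar ν := by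
    intro μ κ hμ hμκ hκ
    obtain ⟨ν, ⟨h5, h6⟩, h7⟩ := (inferInstance : WellFoundedLT Cardinal.{u}).wf.has_min
      {a : Cardinal.{u} | μ < a ∧ IsWeaklyCompact a} ⟨κ, hμκ, hκ⟩
    have h8 := h3 μ ν hμ h5 h6.1 (Or.inr fun a ha1 ha2 ha3 => h7 a ⟨ha1, ha3⟩ ha2)
    exact ⟨ν, h5, not_lt.1 (h7 κ ⟨hμκ, hκ⟩), h6, h8⟩
  refine ⟨h1, fun μ κ => winsUlam, h3, h4, ?_⟩
  intro μ κ hμ hμκ hκ
  by_cases hwc : IsWeaklyCompact κ
  · obtain ⟨ν, h5, h6, h7, h8⟩ := h4 μ κ hμ hμκ hwc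
    exact ⟨ν, h5, h6, h7.1, h8⟩
  · exact ⟨κ, hμκ, le_rfl, hκ, h3 μ κ hμ hμκ hκ (Or.inl hwc)⟩

end Pool.Agent.Results.MP_0eb1a9_lc.UlamNotGStar
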